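import Pool.Agent.TH143.TW.IntCl

/-!
# Finite generation of graded rings (job FG)
-/

set_option autoImplicit false

open Polynomial

namespace Pool.Agent.Q176.AB

section gr

variable {K : Type} [Field K] [Algebra ℂ K]

/-- the graded ring `⊕ V m X^m` -/
noncomputable def GR (V : ℕ → Submodule ℂ K)
    (hmul : ∀ m m' f f', f ∈ V m → f' ∈ V m' → f * f' ∈ V (m + m')) (h1 : (1 : K) ∈ V 0) :
    Subalgebra ℂ K[X] where
  carrier := {p | ∀ m, p.coeff m ∈ V m}
  mul_mem' := by
    intro p q hp hq m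
    rw [coeff_mul]
    refine (V m).sum_mem fun x hx => ?_
    rw [Finset.HasAntidiagonal.mem_antidiagonal] at hx
    rw [← hx]
    exact hmul _ _ _ _ (hp _) (hq _)
  add_mem' := by
    intro p q hp hq m
    rw [coeff_add]
    exact (V m).add_mem (hp m) (hq m)
  algebraMap_mem' := by
    intro c m
    rw [Polynomial.algebraMap_apply, coeff_C]
    split_ifs with h
    · subst h
      rw [Algebra.algebraMap_eq_smul_one]
      exact (V 0).smul_mem c h1
    · exact (V m).zero_mem

lemma mem_GR {V : ℕ → Submodule ℂ K}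
    {hmul : ∀ m m' f f', f ∈ V m → f' ∈ V m' → f * f' ∈ V (m + m')} {h1 : (1 : K) ∈ V 0}
    {p : K[X]} : p ∈ GR V hmul h1 ↔ ∀ m, p.coeff m ∈ V m := Iff.rfl

lemma mono_mem_GR {V : ℕ → Submodule ℂ K}
    {hmul : ∀ m m' f f', f ∈ V m → f' ∈ V m' → f * f' ∈ V (m + m')} {h1 : (1 : K) ∈ V 0}
    {m : ℕ} {f : K} (hf : f ∈ V m) : C f * X ^ m ∈ GR V hmul h1 := by
  rw [mem_GR]
  intro m'
  rw [coeff_C_mul_X_pow]
  split_ifs with h
  · subst h
    exact hf
  · exact (V m').zero_mem

lemma alg_C {V : ℕ → Submodule ℂ K} (halg : ∀ f ∈ V 0, IsAlgebraic ℂ f) {f : K} (hf : f ∈ V 0) :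
    ∃ c : ℂ, algebraMap ℂ K c = f := by
  have h := (halg f hf).isIntegral
  have h1 := IsAlgClosed.degree_eq_one_of_irreducible ℂ (minpoly.irreducible h)
  exact minpoly.mem_range_of_degree_eq_one ℂ f h1

/-- homogeneous generators -/
lemma hom_gen (V : ℕ → Submodule ℂ K)
    (hmul : ∀ m m' f f', f ∈ V m → f' ∈ V m' → f * f' ∈ V (m + m')) (h1 : (1 : K) ∈ V 0)
    (halg : ∀ f ∈ V 0, IsAlgebraic ℂ f) (hfg : (GR V hmul h1).FG) :
    ∃ (s : ℕ) (w : Fin s → ℕ) (x : Fin s → K), (∀ i, 1 ≤ w i ∧ x i ∈ V (w i)) ∧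
      ∀ m, ∀ f ∈ V m, f ∈ Submodule.span ℂ
        {p | ∃ a : Fin s → ℕ, ∑ i, a i * w i = m ∧ p = ∏ i, x i ^ a i} := by
  classical
  obtain ⟨S, hS⟩ := hfg
  let D := S.sup natDegree
  let J := S ×ˢ Finset.range D
  let e := J.equivFin
  let w : Fin J.card → ℕ := fun i => (e.symm i).1.2 + 1
  let x : Fin J.card → K := fun i => (e.symm i).1.1.coeff ((e.symm i).1.2 + 1)
  have hSmem : ∀ p ∈ S, p ∈ GR V hmul h1 := by
    intro p hp
    rw [← hS]
    exact Algebra.subset_adjoin hp
  have hx : ∀ i, x i ∈ V (w i) := by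
    intro i
    have h2 := (e.symm i).2
    rw [Finset.mem_product] at h2
    exact hSmem _ h2.1 _
  refine ⟨J.card, w, x, fun i => ⟨by simp [w], hx i⟩, ?_⟩
  let g : Fin J.card → K[X] := fun i => C (x i) * X ^ w i
  have hle : GR V hmul h1 ≤ Algebra.adjoin ℂ (Set.range g) := by
    rw [← hS]
    refine Algebra.adjoin_le fun p hp => ?_
    have hp' : p ∈ S := hp
    change p ∈ Algebra.adjoin ℂ (Set.range g)
    rw [p.as_sum_range_C_mul_X_pow]
    refine Subalgebra.sum_mem _ fun m hm => ?_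
    rw [Finset.mem_range] at hm
    rcases Nat.eq_zero_or_pos m with h0 | h0
    · subst h0
      obtain ⟨c, hc⟩ := alg_C halg (hSmem p hp' 0)
      have : C (p.coeff 0) * X ^ 0 = algebraMap ℂ K[X] c := by
        rw [Polynomial.algebraMap_apply, hc, pow_zero, mul_one]
      rw [this]
      exact Subalgebra.algebraMap_mem _ c
    · refine Algebra.subset_adjoin ?_
      have hD : p.natDegree ≤ D := Finset.le_sup (f := natDegree) hp'
      have hmem : (p, m - 1) ∈ J := by
        rw [Finset.mem_product, Finset.mem_range]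
        exact ⟨hp', by dsimp only; omega⟩
      refine ⟨e ⟨(p, m - 1), hmem⟩, ?_⟩
      have h3 : m - 1 + 1 = m := by omega
      simp only [g, x, w, Equiv.symm_apply_apply, h3]
  intro m f hf
  have h2 := hle (mono_mem_GR (hmul := hmul) (h1 := h1) hf)
  rw [Algebra.adjoin_range_eq_range_aeval] at h2
  obtain ⟨q, hq⟩ := h2
  have hq' : (MvPolynomial.aeval g) q = C f * X ^ m := hq
  rw [MvPolynomial.aeval_def, MvPolynomial.eval₂_eq'] at hq'
  have h3 := congrArg (fun p => p.coeff m) hq'
  simp only [coeff_C_mul_X_pow, if_true, finsetSum_coeff] at h3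
  rw [← h3]
  refine Submodule.sum_mem _ fun a _ => ?_
  have h4 : ∏ i, g i ^ a i = C (∏ i, x i ^ a i) * X ^ (∑ i, a i * w i) := by
    simp only [g, mul_pow, ← pow_mul, Finset.prod_mul_distrib, Finset.prod_pow_eq_pow_sum]
    congr 1
    · rw [map_prod]
      exact Finset.prod_congr rfl fun i _ => by rw [map_pow]
    · congr 1
      exact Finset.sum_congr rfl fun i _ => mul_comm _ _
  rw [h4, Polynomial.algebraMap_apply, ← mul_assoc, ← C_mul, coeff_C_mul_X_pow]
  split_ifs with h5
  · rw [← Algebra.smul_def]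
    exact Submodule.smul_mem _ _ (Submodule.subset_span ⟨fun i => a i, h5.symm, rfl⟩)
  · exact Submodule.zero_mem _

end gr

section fin

variable {K : Type} [Field K] [Algebra ℂ K] [Algebra.EssFiniteType ℂ K]

/-- the field `K(X)` -/
abbrev EE (K : Type) [Field K] : Type := FractionRing K[X]

instance essEE : Algebra.EssFiniteType ℂ (EE K) := by
  have h1 : Algebra.EssFiniteType K K[X] := inferInstance
  have h2 : Algebra.EssFiniteType K[X] (EE K) :=
    Algebra.EssFiniteType.of_isLocalization _ (nonZeroDivisors K[X])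
  have h3 : Algebra.EssFiniteType ℂ K[X] := Algebra.EssFiniteType.comp ℂ K K[X]
  exact Algebra.EssFiniteType.comp ℂ K[X] (EE K)

/-- the embedding of `K` -/
noncomputable def emb (K : Type) [Field K] : K →+* EE K := (algebraMap K[X] (EE K)).comp C

/-- the variable -/
noncomputable def XX (K : Type) [Field K] : EE K := algebraMap K[X] (EE K) X

omit [Algebra.EssFiniteType ℂ K] in
lemma emb_C (c : ℂ) : emb K (algebraMap ℂ K c) = algebraMap ℂ (EE K) c := by
  have : algebraMap ℂ (EE K) c = algebraMap K[X] (EE K) (algebraMap ℂ K[X] c) :=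
    IsScalarTower.algebraMap_apply ℂ K[X] (EE K) c
  rw [this, Polynomial.algebraMap_apply]
  rfl

omit [Algebra.EssFiniteType ℂ K] in
/-- integrality over the subring generated by the `ω i X^T` -/
lemma int_mono {r T : ℕ} (ω : Fin r → K) (hT : 0 < T) (f : K) (m : ℕ)
    (hne : f ≠ 0 → ∃ i, ω i ≠ 0)
    (hint : ∀ i, ω i ≠ 0 →
      IsIntegral (Algebra.adjoin ℂ (Set.range fun j => ω j / ω i)) (f ^ T / ω i ^ m)) :
    IsIntegral (Algebra.adjoin ℂ (Set.range fun i => emb K (ω i) * XX K ^ T)) (emb K f * XX K ^ m) := by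
  classical
  by_cases hf : f = 0
  · rw [hf, map_zero, zero_mul]
    exact isIntegral_zero
  obtain ⟨i0, hi0⟩ := hne hf
  let A0 := Algebra.adjoin ℂ (Set.range fun i => emb K (ω i) * XX K ^ T)
  have hcl : Subring.closure (A0 : Set (EE K)) = A0.toSubring := by
    have : (A0 : Set (EE K)) = (A0.toSubring : Set (EE K)) := rfl
    rw [this, Subring.closure_eq]
  have key : emb K f * XX K ^ m ∈
      (⨅ V : {V : ValuationSubring (EE K) // (A0 : Set (EE K)) ⊆ V.toSubring}, V.1.toSubring) := by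
    rw [Subring.mem_iInf]
    rintro ⟨V, hV⟩
    change emb K f * XX K ^ m ∈ V
    have hCV : ∀ c : ℂ, algebraMap ℂ (EE K) c ∈ V := fun c => hV (A0.algebraMap_mem c)
    have hωV : ∀ i, V.valuation (emb K (ω i) * XX K ^ T) ≤ 1 := fun i =>
      (V.valuation_le_one_iff _).2 (hV (Algebra.subset_adjoin ⟨i, rfl⟩))
    haveI : Nonempty (Fin r) := ⟨i0⟩
    obtain ⟨i, hi⟩ := Finite.exists_max fun i => V.valuation (emb K (ω i))
    have hωi : ω i ≠ 0 := by
      intro h
      have h1 := hi i0
      simp only [h, map_zero] at h1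
      have h2 := le_antisymm h1 zero_le
      rw [map_eq_zero, map_eq_zero] at h2
      exact hi0 h2
    have hA : ∀ a ∈ Algebra.adjoin ℂ (Set.range fun j => ω j / ω i), emb K a ∈ V := by
      intro a ha
      refine Algebra.adjoin_induction (p := fun a _ => emb K a ∈ V) ?_ ?_ ?_ ?_ ha
      · rintro _ ⟨j, rfl⟩
        rw [← V.valuation_le_one_iff]
        simp only
        rw [map_div₀, map_div₀]
        refine div_le_one_of_le₀ (hi j) zero_le
      · intro c
        rw [emb_C]
        exact hCV c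
      · intro x y _ _ hx hy
        rw [map_add]
        exact V.add_mem _ _ hx hy
      · intro x y _ _ hx hy
        rw [map_mul]
        exact V.mul_mem _ _ hx hy
    have hφ : emb K (f ^ T / ω i ^ m) ∈ V := by
      let φ : Algebra.adjoin ℂ (Set.range fun j => ω j / ω i) →+* V :=
        ((emb K).comp (Algebra.adjoin ℂ (Set.range fun j => ω j / ω i)).val.toRingHom).codRestrict
          V.toSubring (fun a => hA a a.2)
      have h1 : IsIntegral V (emb K (f ^ T / ω i ^ m)) :=
        IsIntegral.map_of_comp_eq φ (emb K) (RingHom.ext fun a => rfl) (hint i hωi)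
      obtain ⟨y, hy⟩ := IsIntegrallyClosed.isIntegral_iff.1 h1
      rw [← hy]
      exact y.2
    rw [← V.valuation_le_one_iff] at hφ ⊢
    have hpos : (0 : _) < V.valuation (emb K (ω i)) := by
      rw [zero_lt_iff]
      intro h
      rw [map_eq_zero, map_eq_zero] at h
      exact hωi h
    have h3 : V.valuation (emb K f) ^ T ≤ V.valuation (emb K (ω i)) ^ m := by
      rw [map_div₀, map_div₀, map_pow, map_pow, map_pow, map_pow] at hφ
      rwa [div_le_one₀ (pow_pos hpos m)] at hφ
    rw [← pow_le_one_iff (n := T) hT.ne', map_mul, map_pow, mul_pow]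
    calc V.valuation (emb K f) ^ T * (V.valuation (XX K) ^ m) ^ T
        ≤ V.valuation (emb K (ω i)) ^ m * (V.valuation (XX K) ^ m) ^ T :=
          mul_le_mul_left h3 _
      _ = (V.valuation (emb K (ω i) * XX K ^ T)) ^ m := by
          rw [map_mul, map_pow, mul_pow, ← pow_mul, ← pow_mul, mul_comm m T]
      _ ≤ 1 := pow_le_one₀ zero_le (hωV i)
  rw [iInf_valuationSubring_superset] at key
  have h1 : IsIntegral (Subring.closure (A0 : Set (EE K))) (emb K f * XX K ^ m) := key
  let ψ : Subring.closure (A0 : Set (EE K)) →+* A0 := Subring.inclusion (hcl.le)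
  exact IsIntegral.map_of_comp_eq ψ (RingHom.id (EE K)) (RingHom.ext fun a => rfl) h1

/-- **finite generation** -/
theorem fg0 (V : ℕ → Submodule ℂ K)
    (hmul : ∀ m m' f f', f ∈ V m → f' ∈ V m' → f * f' ∈ V (m + m')) (h1 : (1 : K) ∈ V 0)
    (halg : ∀ f ∈ V 0, IsAlgebraic ℂ f) {r T : ℕ} (ω : Fin r → K) (hT : 0 < T)
    (hω : ∀ i, ω i ∈ V T) (hne : ∀ m, 1 ≤ m → ∀ f ∈ V m, f ≠ 0 → ∃ i, ω i ≠ 0)
    (hint : ∀ m, 1 ≤ m → ∀ f ∈ V m, ∀ i, ω i ≠ 0 →
      IsIntegral (Algebra.adjoin ℂ (Set.range fun j => ω j / ω i)) (f ^ T / ω i ^ m)) :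
    (GR V hmul h1).FG := by
  classical
  let ι : K[X] →ₐ[ℂ] EE K := IsScalarTower.toAlgHom ℂ K[X] (EE K)
  have hι : Function.Injective ι := IsFractionRing.injective K[X] (EE K)
  refine Subalgebra.fg_of_fg_map _ ι hι ?_
  let A0 := Algebra.adjoin ℂ (Set.range fun i => emb K (ω i) * XX K ^ T)
  have hιm : ∀ (f : K) (m : ℕ), ι (C f * X ^ m) = emb K f * XX K ^ m := by
    intro f m
    rw [map_mul, map_pow]
    rfl
  let R' := (GR V hmul h1).map ι
  have hA0R : A0 ≤ R' := by
    refine Algebra.adjoin_le ?_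
    rintro _ ⟨i, rfl⟩
    exact ⟨C (ω i) * X ^ T, mono_mem_GR (hω i), hιm _ _⟩
  have hfin : Algebra.FiniteType ℂ A0 :=
    (Subalgebra.fg_iff_finiteType _).1 (Subalgebra.fg_def.2 ⟨_, Set.finite_range _, rfl⟩)
  have hN : IsNoetherianRing A0 := Algebra.FiniteType.isNoetherianRing ℂ A0
  have hInt : ∀ x ∈ R', IsIntegral A0 x := by
    rintro _ ⟨p, hp, rfl⟩
    change IsIntegral A0 (ι p)
    rw [p.as_sum_range_C_mul_X_pow, map_sum]
    refine IsIntegral.sum _ fun m _ => ?_
    rw [hιm]
    rcases Nat.eq_zero_or_pos m with h0 | h0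
    · subst h0
      obtain ⟨c, hc⟩ := alg_C halg (hp 0)
      rw [← hc, emb_C, pow_zero, mul_one]
      exact isIntegral_algebraMap (R := A0) (x := algebraMap ℂ A0 c)
    · exact int_mono ω hT _ m (hne m h0 _ (hp m)) (hint m h0 _ (hp m))
  have hfinI : Module.Finite A0 (integralClosure A0 (EE K)) :=
    Pool.Agent.TH143.TW.finite_intCl (k := ℂ) (A := A0) (T := EE K) (ι := Unit)
      (fun _ => EE K) (fun _ => RingHom.id _) (fun _ c => rfl)
      (fun _ => Subtype.val_injective) (fun x hx => hx ())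
  have hNI : IsNoetherian A0 (integralClosure A0 (EE K)) :=
    isNoetherian_of_isNoetherianRing_of_finite A0 (integralClosure A0 (EE K))
  let N : Submodule A0 (EE K) :=
    { carrier := R'
      add_mem' := fun ha hb => R'.add_mem ha hb
      zero_mem' := R'.zero_mem
      smul_mem' := fun c x hx => by
        rw [Algebra.smul_def]
        exact R'.mul_mem (hA0R c.2) hx }
  have hNle : N ≤ Subalgebra.toSubmodule (integralClosure A0 (EE K)) := fun x hx => hInt x hx
  have hNI' : IsNoetherian A0 (Subalgebra.toSubmodule (integralClosure A0 (EE K))) := hNI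
  obtain ⟨G, hG⟩ : N.FG := (isNoetherian_submodule.1 hNI') N hNle
  have hGN : ∀ x ∈ G, x ∈ R' := by
    intro x hx
    have : x ∈ N := by
      rw [← hG]
      exact Submodule.subset_span hx
    exact this
  have hR' : R' = Algebra.adjoin ℂ ((Set.range fun i => emb K (ω i) * XX K ^ T) ∪ (G : Set (EE K))) := by
    refine le_antisymm ?_ ?_
    · intro x hx
      have hx' : x ∈ N := hx
      rw [← hG] at hx'
      refine Submodule.span_induction (p := fun x _ => x ∈ Algebra.adjoin ℂ
        ((Set.range fun i => emb K (ω i) * XX K ^ T) ∪ (G : Set (EE K)))) ?_ ?_ ?_ ?_ hx'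
      · intro y hy
        exact Algebra.subset_adjoin (Or.inr hy)
      · exact Subalgebra.zero_mem _
      · intro y z _ _ hy hz
        exact Subalgebra.add_mem _ hy hz
      · intro a y _ hy
        rw [Algebra.smul_def]
        exact Subalgebra.mul_mem _ (Algebra.adjoin_mono Set.subset_union_left a.2) hy
    · refine Algebra.adjoin_le ?_
      rintro x (hx | hx)
      · exact hA0R (Algebra.subset_adjoin hx)
      · exact hGN x hx
  change R'.FG
  rw [hR']
  exact Subalgebra.fg_def.2 ⟨_, (Set.finite_range _).union G.finite_toSet, rfl⟩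

end fin

end Pool.Agent.Q176.AB
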