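import Pool.Agent.Q41.AB.Stm3
import Pool.Agent.Q176.AB.FG0

/-!
# Job FG: the statement `S_FG`
-/

set_option autoImplicit false

namespace Pool.Agent.Q176.AB

theorem fg : Pool.Agent.Q41.AB.S_FG := by
  intro K _ _ _ V hmul h1 halg r T ω hT hω hne hint
  exact hom_gen V hmul h1 halg (fg0 V hmul h1 halg ω hT hω hne hint)

end Pool.Agent.Q176.AB
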